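import Mathlib

/-!
# MP_7b3742_al, Q1: automata of affine tree automorphisms beyond wreath products

For every `d ≥ 2` let `g` be the linear automorphism `x ↦ xA`, `A = I + ∑ E_{i,i+1}` with the sum
over the `i` divisible by three (for one of the three residues).  Its states are the three linear
maps `T_0, T_1, T_2` belonging to the three residues and the maps `T_0 + c e_1`.  The group
generated by the `T_r` contains elementary operators `E_{r,k}` with `k` prime to three, and in each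
subgroup of finite index there are two elements of finite order which do not commute.
-/

set_option autoImplicit false

namespace Pool.Agent.Results.MP_7b3742_al.AffineNotWreath

/-! ### Definitions -/

/-- The infinite word `c v`. -/
def consW {X : Type} (c : X) (v : ℕ → X) : ℕ → X
  | 0 => c
  | n + 1 => v n

/-- The state `g|_c` of `g` at the letter `c`, as a self-map of the boundary:
`g(c v) = g(c) g|_c(v)`. -/
def state1 {X : Type} (g : (ℕ → X) → (ℕ → X)) (c : X) : (ℕ → X) → (ℕ → X) :=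
  fun v n => g (consW c v) (n + 1)

/-- The state `g|_w` of `g` at the finite word `w`. -/
def state {X : Type} (g : (ℕ → X) → (ℕ → X)) : List X → (ℕ → X) → (ℕ → X)
  | [] => g
  | c :: w => state (state1 g c) w

/-- The permutation `g` of the boundary is an affine automorphism: `g(x) = b + xA` with `A` upper
triangular with units on the diagonal. -/
def IsAffineAut {d : ℕ} (g : Equiv.Perm (ℕ → ZMod d)) : Prop :=
  ∃ (A : ℕ → ℕ → ZMod d) (b : ℕ → ZMod d), (∀ i, IsUnit (A i i)) ∧ (∀ i j, j < i → A i j = 0) ∧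
    ∀ x j, g x j = b j + ∑ i ∈ Finset.range (j + 1), x i * A i j

/-- `g` is finite-state. -/
def FiniteState {X : Type} (g : Equiv.Perm (ℕ → X)) : Prop := (Set.range (state g)).Finite

/-- The group generated by the automaton of `g`, as a group of permutations of the boundary. -/
def autGroup {X : Type} (g : Equiv.Perm (ℕ → X)) : Subgroup (Equiv.Perm (ℕ → X)) :=
  Subgroup.closure {h | ∃ w : List X, (h : (ℕ → X) → (ℕ → X)) = state g w}

/-- The finitely supported functions `ℤ^l → (ℤ/d)^k`. -/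
abbrev Lamps (d k l : ℕ) : Type := (Fin l → ℤ) →₀ (Fin k → ZMod d)

/-- The shift `(z • f)(w) = f(w - z)`. -/
def shift {d k l : ℕ} (z : Fin l → ℤ) (f : Lamps d k l) : Lamps d k l :=
  Finsupp.equivMapDomain (Equiv.addLeft z) f

/-- The restricted wreath product `(ℤ/d)^k ≀ ℤ^l`: pairs `(f, z)` of a finitely supported function
`f : ℤ^l → (ℤ/d)^k` and `z ∈ ℤ^l`, with `(f, z)(f', z') = (f + z • f', z + z')`. -/
@[ext] structure Wreath (d k l : ℕ) where
  lamp : Lamps d k l
  pos : Fin l → ℤ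

section WreathGroup
variable {d k l : ℕ}

theorem shift_apply (z : Fin l → ℤ) (f : Lamps d k l) (w : Fin l → ℤ) :
    shift z f w = f (-z + w) := rfl

theorem shift_add (z : Fin l → ℤ) (f g : Lamps d k l) : shift z (f + g) = shift z f + shift z g := by
  ext w : 1
  simp only [shift_apply, Finsupp.add_apply]

theorem shift_shift (y z : Fin l → ℤ) (f : Lamps d k l) :
    shift y (shift z f) = shift (y + z) f := by
  ext w : 1
  rw [shift_apply, shift_apply, shift_apply]
  congr 1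
  abel

theorem shift_zero (f : Lamps d k l) : shift 0 f = f := by
  ext w : 1
  rw [shift_apply, neg_zero, zero_add]

theorem shift_neg (z : Fin l → ℤ) (f : Lamps d k l) : shift z (-f) = -shift z f := by
  ext w : 1
  simp only [shift_apply, Finsupp.neg_apply]

noncomputable instance : Mul (Wreath d k l) :=
  ⟨fun x y => ⟨x.lamp + shift x.pos y.lamp, x.pos + y.pos⟩⟩
noncomputable instance : One (Wreath d k l) := ⟨⟨0, 0⟩⟩
noncomputable instance : Inv (Wreath d k l) := ⟨fun x => ⟨-shift (-x.pos) x.lamp, -x.pos⟩⟩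

theorem mul_lamp (x y : Wreath d k l) : (x * y).lamp = x.lamp + shift x.pos y.lamp := rfl
theorem mul_pos' (x y : Wreath d k l) : (x * y).pos = x.pos + y.pos := rfl

theorem w_assoc (x y z : Wreath d k l) : x * y * z = x * (y * z) := by
  apply Wreath.ext
  · simp only [mul_lamp, mul_pos', shift_add, shift_shift, add_assoc]
  · simp only [mul_pos', add_assoc]

theorem w_one_mul (x : Wreath d k l) : 1 * x = x := by
  apply Wreath.ext
  · change 0 + shift 0 x.lamp = x.lamp
    rw [shift_zero, zero_add]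
  · change 0 + x.pos = x.pos
    rw [zero_add]

theorem w_inv_mul (x : Wreath d k l) : x⁻¹ * x = 1 := by
  apply Wreath.ext
  · change -shift (-x.pos) x.lamp + shift (-x.pos) x.lamp = 0
    rw [neg_add_cancel]
  · change -x.pos + x.pos = 0
    rw [neg_add_cancel]

noncomputable instance : Group (Wreath d k l) := Group.ofLeftAxioms w_assoc w_one_mul w_inv_mul

end WreathGroup

/-! ### Elementary operators -/

section Ops
variable {R : Type} [CommRing R]

/-- The operator `(N_{r,k} x)_j = x_{j-k}` if `j ≡ r mod 3` and `j ≥ k`, and `0` otherwise. -/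
def Nop (r : ZMod 3) (k : ℕ) : Module.End R (ℕ → R) where
  toFun x j := if (j : ZMod 3) = r ∧ k ≤ j then x (j - k) else 0
  map_add' x y := by
    ext j
    simp only [Pi.add_apply]
    split_ifs <;> simp
  map_smul' c x := by
    ext j
    simp only [Pi.smul_apply, RingHom.id_apply]
    split_ifs <;> simp

theorem Nop_apply (r : ZMod 3) (k : ℕ) (x : ℕ → R) (j : ℕ) :
    Nop r k x j = if (j : ZMod 3) = r ∧ k ≤ j then x (j - k) else 0 := rfl

theorem Nop_mul (r r' : ZMod 3) (k k' : ℕ) :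
    (Nop r k * Nop r' k' : Module.End R (ℕ → R)) = if r - k = r' then Nop r (k + k') else 0 := by
  ext x j
  rw [Module.End.mul_apply, Nop_apply]
  by_cases h1 : (j : ZMod 3) = r ∧ k ≤ j
  · rw [if_pos h1, Nop_apply, Nat.cast_sub h1.2, h1.1]
    by_cases h2 : r - k = r'
    · rw [if_pos h2, Nop_apply]
      by_cases h3 : k' ≤ j - k
      · rw [if_pos ⟨h2, h3⟩, if_pos ⟨h1.1, by omega⟩]
        congr 1; omega
      · rw [if_neg (fun h => h3 h.2), if_neg (fun h => h3 (by omega))]
    · rw [if_neg h2, if_neg (fun h => h2 h.1)]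
      rfl
  · rw [if_neg h1]
    by_cases h2 : r - k = r'
    · rw [if_pos h2, Nop_apply, if_neg (fun h => h1 ⟨h.1, by omega⟩)]
    · rw [if_neg h2]; rfl

theorem Nop_mul_pos {r r' : ZMod 3} {k : ℕ} (k' : ℕ) (h : r - k = r') :
    (Nop r k * Nop r' k' : Module.End R (ℕ → R)) = Nop r (k + k') := by
  rw [Nop_mul, if_pos h]

theorem Nop_mul_neg {r r' : ZMod 3} {k : ℕ} (k' : ℕ) (h : r - k ≠ r') :
    (Nop r k * Nop r' k' : Module.End R (ℕ → R)) = 0 := by
  rw [Nop_mul, if_neg h]

end Ops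

section Unip
variable {E : Type} [Ring E]

/-- The unit `1 + A` for `A² = 0`. -/
def unip (A : E) (h : A * A = 0) : Eˣ where
  val := 1 + A
  inv := 1 - A
  val_inv := by
    have : (1 + A) * (1 - A) = 1 - A * A := by noncomm_ring
    rw [this, h, sub_zero]
  inv_val := by
    have : (1 - A) * (1 + A) = 1 - A * A := by noncomm_ring
    rw [this, h, sub_zero]

theorem unip_val (A : E) (h : A * A = 0) : ((unip A h : Eˣ) : E) = 1 + A := rfl
theorem unip_inv_val (A : E) (h : A * A = 0) : (((unip A h)⁻¹ : Eˣ) : E) = 1 - A := rfl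

theorem unip_pow (A : E) (h : A * A = 0) (n : ℕ) :
    (((unip A h) ^ n : Eˣ) : E) = 1 + n • A := by
  induction n with
  | zero => simp
  | succ n ih =>
    rw [pow_succ, Units.val_mul, ih, unip_val]
    have h2 : (n • A) * A = 0 := by rw [smul_mul_assoc, h, smul_zero]
    rw [add_mul, one_mul, mul_add, h2, mul_one, succ_nsmul]
    abel

open scoped commutatorElement in
/-- The commutator of two elementary operators. -/
theorem unip_comm {A B C : E} (hA : A * A = 0) (hB : B * B = 0) (hC : C * C = 0)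
    (hAB : A * B = C) (hBA : B * A = 0) :
    ⁅unip A hA, unip B hB⁆ = unip C hC := by
  apply Units.ext
  rw [commutatorElement_def, Units.val_mul, Units.val_mul, Units.val_mul, unip_val, unip_val,
    unip_inv_val, unip_inv_val, unip_val]
  have e : (1 + A) * (1 + B) * (1 - A) * (1 - B) = 1 + A * B - A * A * (1 - B) + A * A * B
    - B * A * (1 - B) - B * B - A * B * A * (1 - B) - A * (B * B) - A * A * B * 0 - A * A * B := by
    noncomm_ring
  rw [e, hA, hB, hBA, hAB]
  have h1 : C * A = 0 := by rw [← hAB, mul_assoc, hBA, mul_zero]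
  rw [h1]
  simp

theorem unip_div {A A' : E} (hA : A * A = 0) (hA' : A' * A' = 0) (h : A * A' = 0)
    (h2 : (A' - A) * (A' - A) = 0) :
    (unip A hA)⁻¹ * unip A' hA' = unip (A' - A) h2 := by
  apply Units.ext
  rw [Units.val_mul, unip_val, unip_inv_val, unip_val]
  have e : (1 - A) * (1 + A') = 1 + (A' - A) - A * A' := by noncomm_ring
  rw [e, h, sub_zero]

end Unip

/-! ### The group -/

section Grp
variable {R : Type} [CommRing R]

open scoped commutatorElement

/-- Invertible operators as permutations. -/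
def P : (Module.End R (ℕ → R))ˣ →* Equiv.Perm (ℕ → R) :=
  MulAction.toPermHom (Module.End R (ℕ → R))ˣ (ℕ → R)

theorem P_apply (u : (Module.End R (ℕ → R))ˣ) (x : ℕ → R) :
    P u x = (u : Module.End R (ℕ → R)) x := rfl

theorem P_inj : Function.Injective (P (R := R)) := by
  intro u v h
  apply Units.ext
  ext x : 1
  exact DFunLike.congr_fun h x

theorem sq_zero (r : ZMod 3) {k : ℕ} (hk : (k : ZMod 3) ≠ 0) :
    (Nop r k * Nop r k : Module.End R (ℕ → R)) = 0 := by
  apply Nop_mul_neg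
  intro h
  exact hk (by linear_combination -h)

/-- The elementary operator `E_{r,k} = 1 + N_{r,k}`. -/
def El (r : ZMod 3) (k : ℕ) (hk : (k : ZMod 3) ≠ 0) : (Module.End R (ℕ → R))ˣ :=
  unip (Nop r k) (sq_zero r hk)

theorem El_comm (r r' : ZMod 3) (k k' : ℕ) (hk : (k : ZMod 3) ≠ 0) (hk' : (k' : ZMod 3) ≠ 0)
    (hkk : ((k + k' : ℕ) : ZMod 3) ≠ 0) (hr : r - k = r') :
    ⁅(El r k hk : (Module.End R (ℕ → R))ˣ), (El r' k' hk' : (Module.End R (ℕ → R))ˣ)⁆ =
      El r (k + k') hkk := by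
  subst hr
  apply unip_comm
  · exact Nop_mul_pos k' rfl
  · apply Nop_mul_neg
    intro h
    apply hkk
    push_cast
    linear_combination -h

theorem cast1 (m : ℕ) : ((3 * m + 1 : ℕ) : ZMod 3) = 1 := by
  push_cast
  have : (3 : ZMod 3) = 0 := rfl
  rw [this]; simp

theorem cast2 (m : ℕ) : ((3 * m + 2 : ℕ) : ZMod 3) = 2 := by
  push_cast
  have : (3 : ZMod 3) = 0 := rfl
  rw [this]; simp

theorem c1 (m : ℕ) : ((3 * m + 1 : ℕ) : ZMod 3) ≠ 0 := by rw [cast1]; decide
theorem c2 (m : ℕ) : ((3 * m + 2 : ℕ) : ZMod 3) ≠ 0 := by rw [cast2]; decide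

theorem El_mem (H : Subgroup (Equiv.Perm (ℕ → R)))
    (h : ∀ r, P (El r (3 * 0 + 1) (c1 0)) ∈ H) (m : ℕ) :
    (∀ r, P (El r (3 * m + 1) (c1 m)) ∈ H) ∧ (∀ r, P (El r (3 * m + 2) (c2 m)) ∈ H) := by
  have step : ∀ m, (∀ r, P (El r (3 * m + 1) (c1 m)) ∈ H) →
      ∀ r, P (El r (3 * m + 2) (c2 m)) ∈ H := by
    intro m hm r
    have h1 := El_comm (R := R) r (r - ((3 * m + 1 : ℕ) : ZMod 3)) (3 * m + 1) (3 * 0 + 1) (c1 m)
      (c1 0) (c2 m) rfl
    have h2 : P ⁅(El r (3 * m + 1) (c1 m) : (Module.End R (ℕ → R))ˣ),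
        (El (r - ((3 * m + 1 : ℕ) : ZMod 3)) (3 * 0 + 1) (c1 0) :
          (Module.End R (ℕ → R))ˣ)⁆ ∈ H := by
      rw [map_commutatorElement, commutatorElement_def]
      exact mul_mem (mul_mem (mul_mem (hm _) (h _)) (inv_mem (hm _))) (inv_mem (h _))
    rw [h1] at h2
    exact h2
  induction m with
  | zero => exact ⟨h, step 0 h⟩
  | succ m ih =>
    have h3 : ∀ r, P (El r (3 * (m + 1) + 1) (c1 (m + 1))) ∈ H := by
      intro r
      have h1 := El_comm (R := R) r (r - ((3 * m + 2 : ℕ) : ZMod 3)) (3 * m + 2) (3 * 0 + 2) (c2 m)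
        (c2 0) (c1 (m + 1)) rfl
      have h2 : P ⁅(El r (3 * m + 2) (c2 m) : (Module.End R (ℕ → R))ˣ),
          (El (r - ((3 * m + 2 : ℕ) : ZMod 3)) (3 * 0 + 2) (c2 0) :
            (Module.End R (ℕ → R))ˣ)⁆ ∈ H := by
        rw [map_commutatorElement, commutatorElement_def]
        exact mul_mem (mul_mem (mul_mem (ih.2 _) (step 0 h _)) (inv_mem (ih.2 _)))
          (inv_mem (step 0 h _))
      rw [h1] at h2
      exact h2
    exact ⟨h3, step _ h3⟩

theorem Nop_cross1 (m m' : ℕ) :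
    (Nop 0 (3 * m + 1) * Nop 0 (3 * m' + 1) : Module.End R (ℕ → R)) = 0 := by
  apply Nop_mul_neg
  rw [cast1]; decide

theorem Nop_cross2 (m m' : ℕ) :
    (Nop 2 (3 * m + 2) * Nop 2 (3 * m' + 2) : Module.End R (ℕ → R)) = 0 := by
  apply Nop_mul_neg
  rw [cast2]; decide

theorem Nop_12 (m m' : ℕ) :
    (Nop 0 (3 * m + 1) * Nop 2 (3 * m' + 2) : Module.End R (ℕ → R)) =
      Nop 0 (3 * (m + m') + 3) := by
  rw [Nop_mul_pos _ (by rw [cast1]; decide)]
  congr 1; omega

theorem Nop_21 (m m' : ℕ) :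
    (Nop 2 (3 * m' + 2) * Nop 0 (3 * m + 1) : Module.End R (ℕ → R)) =
      Nop 2 (3 * (m + m') + 3) := by
  rw [Nop_mul_pos _ (by rw [cast2]; decide)]
  congr 1; omega

/-- The difference operators. -/
theorem dsq1 (m m' : ℕ) : ((Nop 0 (3 * m' + 1) - Nop 0 (3 * m + 1)) *
    (Nop 0 (3 * m' + 1) - Nop 0 (3 * m + 1)) : Module.End R (ℕ → R)) = 0 := by
  rw [sub_mul, mul_sub, mul_sub]
  simp only [Nop_cross1, sub_zero]

theorem dsq2 (m m' : ℕ) : ((Nop 2 (3 * m' + 2) - Nop 2 (3 * m + 2)) *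
    (Nop 2 (3 * m' + 2) - Nop 2 (3 * m + 2)) : Module.End R (ℕ → R)) = 0 := by
  rw [sub_mul, mul_sub, mul_sub]
  simp only [Nop_cross2, sub_zero]

theorem not_comm [Nontrivial R] {m m' l l' : ℕ} (hm : m < m') (hl : l < l') :
    unip (Nop 0 (3 * m' + 1) - Nop 0 (3 * m + 1) : Module.End R (ℕ → R)) (dsq1 m m') *
      unip (Nop 2 (3 * l' + 2) - Nop 2 (3 * l + 2)) (dsq2 l l') ≠
    unip (Nop 2 (3 * l' + 2) - Nop 2 (3 * l + 2)) (dsq2 l l') *
      unip (Nop 0 (3 * m' + 1) - Nop 0 (3 * m + 1)) (dsq1 m m') := by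
  intro h
  have h1 := congrArg (fun u : (Module.End R (ℕ → R))ˣ => (u : Module.End R (ℕ → R))) h
  simp only [Units.val_mul, unip_val] at h1
  have h2 : ((Nop 0 (3 * m' + 1) - Nop 0 (3 * m + 1)) *
      (Nop 2 (3 * l' + 2) - Nop 2 (3 * l + 2)) : Module.End R (ℕ → R)) =
      (Nop 2 (3 * l' + 2) - Nop 2 (3 * l + 2)) * (Nop 0 (3 * m' + 1) - Nop 0 (3 * m + 1)) := by
    have e1 : ∀ A B : Module.End R (ℕ → R), (1 + A) * (1 + B) = 1 + A + B + A * B := by
      intro A B; noncomm_ring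
    rw [e1, e1] at h1
    rw [← sub_eq_zero] at h1 ⊢
    rw [← h1]
    abel
  rw [sub_mul, mul_sub, mul_sub, sub_mul, mul_sub, mul_sub] at h2
  simp only [Nop_12, Nop_21] at h2
  have h3 := congrFun (DFunLike.congr_fun h2 (Pi.single 0 1)) (3 * (m' + l') + 3)
  simp only [LinearMap.sub_apply, Pi.sub_apply, Nop_apply] at h3
  have hc : ((3 * (m' + l') + 3 : ℕ) : ZMod 3) = 0 := by
    push_cast
    have : (3 : ZMod 3) = 0 := rfl
    rw [this]; simp
  have hc2 : ¬ ((0 : ZMod 3) = 2) := by decide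
  simp only [hc, hc2, false_and, if_false, true_and, sub_zero] at h3
  rw [if_pos le_rfl, if_pos (by omega), if_pos (by omega), if_pos (by omega), Nat.sub_self,
    Pi.single_eq_same, Pi.single_eq_of_ne (by omega), Pi.single_eq_of_ne (by omega),
    Pi.single_eq_of_ne (by omega)] at h3
  simp at h3

/-- The maps `T_r + c e_1`. -/
def Tc (r : ZMod 3) (c : R) : (ℕ → R) → (ℕ → R) := fun v n =>
  v n + (if (n : ZMod 3) = r ∧ 1 ≤ n then v (n - 1) else 0) + (if n = 0 then c else 0)

theorem state1_Tc (r : ZMod 3) (c' c : R) :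
    state1 (Tc r c') c = Tc (r - 1) (if r = 1 then c else 0) := by
  funext v n
  unfold state1 Tc
  rw [if_neg (Nat.succ_ne_zero n), add_zero]
  have h1 : ((n + 1 : ℕ) : ZMod 3) = r ↔ (n : ZMod 3) = r - 1 := by
    push_cast
    constructor
    · intro h; rw [← h]; ring
    · intro h; rw [h]; ring
  rcases n with _ | n
  · have h2 : (r - 1 : ZMod 3) = 0 ↔ r = 1 := sub_eq_zero
    by_cases h3 : r = 1
    · subst h3; simp [consW]
    · have h4 : ¬ ((1 : ZMod 3) = r) := fun h => h3 h.symm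
      simp [consW, h3, h4]
  · have h2 : (n + 1 + 1 - 1 : ℕ) = n + 1 := rfl
    rw [h2]
    simp only [h1, consW]
    simp

theorem state_Tc (w : List R) (r : ZMod 3) (c : R) :
    ∃ (r' : ZMod 3) (c' : R), state (Tc r c) w = Tc r' c' := by
  induction w generalizing r c with
  | nil => exact ⟨r, c, rfl⟩
  | cons x w ih =>
    change ∃ (r' : ZMod 3) (c' : R), state (state1 (Tc r c) x) w = Tc r' c'
    rw [state1_Tc]
    exact ih _ _

/-- The automorphism `T_1`. -/
def g0 : Equiv.Perm (ℕ → R) := P (El 1 (3 * 0 + 1) (c1 0))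

theorem P_El (r : ZMod 3) : ((P (El r (3 * 0 + 1) (c1 0)) : Equiv.Perm (ℕ → R)) :
    (ℕ → R) → (ℕ → R)) = Tc r 0 := by
  funext v n
  rw [P_apply]
  unfold El
  rw [unip_val, LinearMap.add_apply, Pi.add_apply, Nop_apply]
  unfold Tc
  simp

theorem g0_eq : ((g0 : Equiv.Perm (ℕ → R)) : (ℕ → R) → (ℕ → R)) = Tc 1 0 := P_El 1

theorem gens_mem (r : ZMod 3) : P (El r (3 * 0 + 1) (c1 0)) ∈ autGroup (g0 : Equiv.Perm (ℕ → R)) := by
  apply Subgroup.subset_closure
  have h0 : state1 (Tc (1 : ZMod 3) (0 : R)) 0 = Tc 0 0 := by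
    rw [state1_Tc]; simp
  have h1 : state1 (Tc (0 : ZMod 3) (0 : R)) 0 = Tc 2 0 := by
    rw [state1_Tc]; congr 1
  have hr : r = 0 ∨ r = 1 ∨ r = 2 := by
    revert r; decide
  rcases hr with rfl | rfl | rfl
  · refine ⟨[0], ?_⟩
    rw [P_El, g0_eq]
    change _ = state1 (Tc 1 0) 0
    rw [h0]
  · refine ⟨[], ?_⟩
    rw [P_El, g0_eq]; rfl
  · refine ⟨[0, 0], ?_⟩
    rw [P_El, g0_eq]
    change _ = state1 (state1 (Tc 1 0) 0) 0
    rw [h0, h1]

end Grp

section Main
variable {d : ℕ}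

theorem finiteState [NeZero d] : FiniteState (g0 : Equiv.Perm (ℕ → ZMod d)) := by
  unfold FiniteState
  apply (Set.finite_range (fun p : ZMod 3 × ZMod d => Tc p.1 p.2)).subset
  rintro _ ⟨w, rfl⟩
  rw [g0_eq]
  obtain ⟨r', c', h⟩ := state_Tc w 1 (0 : ZMod d)
  exact ⟨(r', c'), h.symm⟩

theorem isAffine : IsAffineAut (g0 : Equiv.Perm (ℕ → ZMod d)) := by
  refine ⟨fun i j => if i = j then 1 else if i + 1 = j ∧ (j : ZMod 3) = 1 then 1 else 0,
    fun _ => 0, ?_, ?_, ?_⟩
  · intro i; simp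
  · intro i j hij
    dsimp only
    rw [if_neg (by omega), if_neg (by omega)]
  · intro x j
    rw [g0_eq]
    unfold Tc
    rcases j with _ | j
    · simp
    · rw [Finset.sum_range_succ, Finset.sum_range_succ, Finset.sum_eq_zero (s := Finset.range j)]
      · simp only [if_true, Nat.succ_ne_zero, if_false, add_zero, zero_add, mul_one,
          add_tsub_cancel_right, true_and]
        rw [if_neg (by omega : ¬ j = j + 1)]
        have h1 : (((j + 1 : ℕ) : ZMod 3) = 1 ∧ 1 ≤ j + 1) ↔ ((j + 1 : ℕ) : ZMod 3) = 1 :=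
          and_iff_left (by omega)
        rw [add_comm]
        congr 1
        by_cases h2 : ((j + 1 : ℕ) : ZMod 3) = 1
        · rw [if_pos (h1.2 h2), if_pos h2, mul_one]
        · rw [if_neg (fun h => h2 (h1.1 h)), if_neg h2, mul_zero]
      · intro i hi
        rw [Finset.mem_range] at hi
        dsimp only
        rw [if_neg (by omega), if_neg (by omega), mul_zero]

theorem pow_pos' {k l : ℕ} (x : Wreath d k l) (n : ℕ) : (x ^ n).pos = n • x.pos := by
  induction n with
  | zero => rw [pow_zero, zero_smul]; rfl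
  | succ n ih => rw [pow_succ, mul_pos', ih, succ_nsmul]

/-- Elements of finite order of the wreath product commute. -/
theorem wreath_torsion {k l n : ℕ} (hn : n ≠ 0) {x y : Wreath d k l} (hx : x ^ n = 1)
    (hy : y ^ n = 1) : x * y = y * x := by
  have key : ∀ z : Wreath d k l, z ^ n = 1 → z.pos = 0 := by
    intro z hz
    have h2 : n • z.pos = 0 := by
      rw [← pow_pos', hz]; rfl
    funext i
    have h3 := congrFun h2 i
    simp only [Pi.smul_apply, nsmul_eq_mul, Pi.zero_apply, mul_eq_zero, Nat.cast_eq_zero] at h3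
    exact h3.resolve_left hn
  have hx1 := key x hx
  have hy1 := key y hy
  apply Wreath.ext
  · rw [mul_lamp, mul_lamp, hx1, hy1, shift_zero, shift_zero, add_comm]
  · rw [mul_pos', mul_pos', add_comm]

theorem unip_pow_d {A : Module.End (ZMod d) (ℕ → ZMod d)} (h : A * A = 0) :
    (unip A h) ^ d = 1 := by
  apply Units.ext
  rw [unip_pow, ← Nat.cast_smul_eq_nsmul (ZMod d), ZMod.natCast_self, zero_smul]
  simp

/-- **Negative answer to Q1, for every `d ≥ 2`.** -/
theorem result : ∀ d : ℕ, 2 ≤ d → ∃ g : Equiv.Perm (ℕ → ZMod d),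
    IsAffineAut g ∧ FiniteState g ∧ Infinite (autGroup g) ∧
      ∀ N : Subgroup (autGroup g), N.FiniteIndex →
        ∀ k l : ℕ, IsEmpty (N ≃* Wreath d k l) := by
  intro d hd
  have : NeZero d := ⟨by omega⟩
  have : Fact (1 < d) := ⟨by omega⟩
  have hmem := El_mem (autGroup (g0 : Equiv.Perm (ℕ → ZMod d))) gens_mem
  refine ⟨g0, isAffine, finiteState, ?_, ?_⟩
  · apply Infinite.of_injective (fun m : ℕ =>
      (⟨P (El 0 (3 * m + 1) (c1 m)), (hmem m).1 0⟩ : autGroup (g0 : Equiv.Perm (ℕ → ZMod d))))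
    intro m m' h
    have h1 : (Nop 0 (3 * m + 1) : Module.End (ZMod d) (ℕ → ZMod d)) = Nop 0 (3 * m' + 1) := by
      have h2 := congrArg (fun u : (Module.End (ZMod d) (ℕ → ZMod d))ˣ =>
        (u : Module.End (ZMod d) (ℕ → ZMod d))) (P_inj (Subtype.ext_iff.1 h))
      exact add_left_cancel h2
    by_contra hne
    have h2 := congrFun (DFunLike.congr_fun h1 (Pi.single 2 1)) (3 * m + 3)
    simp only [Nop_apply] at h2
    have hc : ((3 * m + 3 : ℕ) : ZMod 3) = 0 := by
      push_cast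
      have : (3 : ZMod 3) = 0 := rfl
      rw [this]; simp
    rw [hc, if_pos ⟨rfl, by omega⟩] at h2
    have h3 : 3 * m + 3 - (3 * m + 1) = 2 := by omega
    rw [h3, Pi.single_eq_same] at h2
    split_ifs at h2 with h4
    · rw [Pi.single_eq_of_ne (by omega)] at h2
      exact one_ne_zero h2
    · exact one_ne_zero h2
  · intro N hN k l
    refine ⟨fun e => ?_⟩
    -- pigeonhole
    have pig : ∀ (f : ℕ → autGroup (g0 : Equiv.Perm (ℕ → ZMod d))),
        ∃ m m' : ℕ, m < m' ∧ (f m)⁻¹ * f m' ∈ N := by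
      intro f
      have hfin : Finite (autGroup (g0 : Equiv.Perm (ℕ → ZMod d)) ⧸ N) := inferInstance
      obtain ⟨a, b, hab, h⟩ := Finite.exists_ne_map_eq_of_infinite
        (fun m : ℕ => (QuotientGroup.mk (f m) :
          autGroup (g0 : Equiv.Perm (ℕ → ZMod d)) ⧸ N))
      rcases lt_or_gt_of_ne hab with h1 | h1
      · exact ⟨a, b, h1, QuotientGroup.eq.1 h⟩
      · exact ⟨b, a, h1, QuotientGroup.eq.1 h.symm⟩
    obtain ⟨m, m', hm, hN1⟩ := pig (fun m => ⟨P (El 0 (3 * m + 1) (c1 m)), (hmem m).1 0⟩)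
    obtain ⟨l1, l1', hl, hN2⟩ := pig (fun m => ⟨P (El 2 (3 * m + 2) (c2 m)), (hmem m).2 2⟩)
    have e1 : (El 0 (3 * m + 1) (c1 m))⁻¹ * El 0 (3 * m' + 1) (c1 m') =
        unip (Nop 0 (3 * m' + 1) - Nop 0 (3 * m + 1) : Module.End (ZMod d) (ℕ → ZMod d))
          (dsq1 m m') :=
      unip_div _ _ (Nop_cross1 m m') _
    have e2 : (El 2 (3 * l1 + 2) (c2 l1))⁻¹ * El 2 (3 * l1' + 2) (c2 l1') =
        unip (Nop 2 (3 * l1' + 2) - Nop 2 (3 * l1 + 2) : Module.End (ZMod d) (ℕ → ZMod d))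
          (dsq2 l1 l1') :=
      unip_div _ _ (Nop_cross2 l1 l1') _
    set a : N := ⟨_, hN1⟩ with ha
    set b : N := ⟨_, hN2⟩ with hb
    have ha1 : ((a : autGroup (g0 : Equiv.Perm (ℕ → ZMod d))) : Equiv.Perm (ℕ → ZMod d)) =
        P (unip (Nop 0 (3 * m' + 1) - Nop 0 (3 * m + 1)) (dsq1 m m')) := by
      rw [← e1, map_mul, map_inv]; rfl
    have hb1 : ((b : autGroup (g0 : Equiv.Perm (ℕ → ZMod d))) : Equiv.Perm (ℕ → ZMod d)) =
        P (unip (Nop 2 (3 * l1' + 2) - Nop 2 (3 * l1 + 2)) (dsq2 l1 l1')) := by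
      rw [← e2, map_mul, map_inv]; rfl
    have ha2 : a ^ d = 1 := by
      apply Subtype.ext
      apply Subtype.ext
      change ((a : autGroup (g0 : Equiv.Perm (ℕ → ZMod d))) : Equiv.Perm (ℕ → ZMod d)) ^ d = 1
      rw [ha1, ← map_pow, unip_pow_d, map_one]
    have hb2 : b ^ d = 1 := by
      apply Subtype.ext
      apply Subtype.ext
      change ((b : autGroup (g0 : Equiv.Perm (ℕ → ZMod d))) : Equiv.Perm (ℕ → ZMod d)) ^ d = 1
      rw [hb1, ← map_pow, unip_pow_d, map_one]
    have hd0 : d ≠ 0 := by omega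
    have h1 : e a * e b = e b * e a := wreath_torsion hd0
      (by rw [← map_pow, ha2, map_one]) (by rw [← map_pow, hb2, map_one])
    rw [← map_mul, ← map_mul] at h1
    have h2 := e.injective h1
    have h3 : ((a : autGroup (g0 : Equiv.Perm (ℕ → ZMod d))) : Equiv.Perm (ℕ → ZMod d)) *
        ((b : autGroup (g0 : Equiv.Perm (ℕ → ZMod d))) : Equiv.Perm (ℕ → ZMod d)) =
        ((b : autGroup (g0 : Equiv.Perm (ℕ → ZMod d))) : Equiv.Perm (ℕ → ZMod d)) *
        ((a : autGroup (g0 : Equiv.Perm (ℕ → ZMod d))) : Equiv.Perm (ℕ → ZMod d)) :=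
      congrArg (fun z : N => ((z : autGroup (g0 : Equiv.Perm (ℕ → ZMod d))) :
        Equiv.Perm (ℕ → ZMod d))) h2
    rw [ha1, hb1, ← map_mul, ← map_mul] at h3
    exact not_comm hm hl (P_inj h3)

end Main

end Pool.Agent.Results.MP_7b3742_al.AffineNotWreath
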